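import Mathlib

/-!
# Definitions: covers, DP-chromatic number, DP color function
-/

namespace Pool.Agent.Lib.MP_924496_co

/-- A cover `(L, H)` of the graph `G`; the vertex set of `H` is the type `W`. -/
structure Cover {V : Type} (G : SimpleGraph V) (W : Type) where
  /-- the graph `H` -/
  H : SimpleGraph W
  /-- the lists -/
  L : V → Set W
  /-- the lists partition `V(H)`: distinct lists are disjoint -/
  disj : ∀ u v, u ≠ v → Disjoint (L u) (L v)
  /-- the lists partition `V(H)`: they cover `V(H)` -/
  union : (⋃ v, L v) = Set.univ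
  /-- each list induces a clique -/
  clique : ∀ v, H.IsClique (L v)
  /-- the edges between the lists of two adjacent vertices form a matching: each element of
  `L u` has at most one neighbour in `L v` (for every ordered pair of adjacent vertices) -/
  matching : ∀ u v, G.Adj u v → ∀ a ∈ L u, ∀ b ∈ L v, ∀ b' ∈ L v, H.Adj a b → H.Adj a b' → b = b'
  /-- there are no edges between the lists of two distinct non-adjacent vertices -/
  noedge : ∀ u v, u ≠ v → ¬ G.Adj u v → ∀ a ∈ L u, ∀ b ∈ L v, ¬ H.Adj a b

variable {V : Type} {G : SimpleGraph V} {W : Type}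

/-- The cover is `m`-fold. -/
def Cover.IsFold (C : Cover G W) (m : ℕ) : Prop := ∀ v, (C.L v).encard = m

/-- The set of `H`-colorings of `G`: independent sets of `H` of size `|V(G)|`. -/
def Cover.colorings (C : Cover G W) : Set (Set W) :=
  {I | C.H.IsIndepSet I ∧ I.encard = (Nat.card V : ℕ∞)}

/-- The DP-chromatic number: the least `m ≥ 1` such that `G` has an `H`-coloring for every
`m`-fold cover. -/
noncomputable def chiDP (G : SimpleGraph V) : ℕ :=
  sInf {m : ℕ | 1 ≤ m ∧ ∀ (W : Type) (C : Cover G W), C.IsFold m → C.colorings.Nonempty}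

/-- The DP color function: the minimum number of `H`-colorings over all `m`-fold covers. -/
noncomputable def PDP (G : SimpleGraph V) (m : ℕ) : ℕ :=
  sInf {n : ℕ | ∃ (W : Type) (C : Cover G W), C.IsFold m ∧ C.colorings.ncard = n}

/-- `f(G,k)`: the least `t ≥ 0` with `χ_DP(G □ K_{k,t}) = χ_DP(G) + k`. -/
noncomputable def f (G : SimpleGraph V) (k : ℕ) : ℕ :=
  sInf {t : ℕ | chiDP (G.boxProd (completeBipartiteGraph (Fin k) (Fin t))) = chiDP G + k}

end Pool.Agent.Lib.MP_924496_co
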