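import Mathlib
import Pool.Agent.Lib.MP_924496_co.Defs

/-!
# The bound `f(G,k) < P_DP(G, χ_DP(G)+k-1)^k` for `k ≥ 2`
-/

namespace Pool.Agent.Lib.MP_924496_co

open SimpleGraph

/-! ### Canonical covers -/

/-- A canonical `m`-fold cover: all lists are `Fin m`, with a family of partial matchings. -/
structure CC {V : Type} (G : SimpleGraph V) (m : ℕ) where
  M : V → V → Fin m → Fin m → Prop
  symm : ∀ u v a b, M u v a b → M v u b a
  inj : ∀ u v a b b', M u v a b → M u v a b' → b = b'

variable {V : Type} {G : SimpleGraph V} {W : Type} {m : ℕ}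

/-- Proper colorings of a canonical cover. -/
def CC.Proper (D : CC G m) (c : V → Fin m) : Prop :=
  ∀ u v, G.Adj u v → ¬ D.M u v (c u) (c v)

/-- The canonical cover of a cover, given bijections of the lists with `Fin m`. -/
def toCC (C : Cover G W) (φ : ∀ v, Fin m ≃ C.L v) : CC G m where
  M u v a b := G.Adj u v ∧ C.H.Adj (φ u a) (φ v b)
  symm := by
    rintro u v a b ⟨h1, h2⟩
    exact ⟨h1.symm, h2.symm⟩
  inj := by
    rintro u v a b b' ⟨h1, h2⟩ ⟨-, h3⟩
    have := C.matching u v h1 _ (φ u a).2 _ (φ v b).2 _ (φ v b').2 h2 h3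
    exact (φ v).injective (Subtype.ext this)

lemma toCC_range_mem [Finite V] (C : Cover G W) (φ : ∀ v, Fin m ≃ C.L v) (c : V → Fin m)
    (hc : (toCC C φ).Proper c) : Set.range (fun v => ((φ v (c v) : C.L v) : W)) ∈ C.colorings := by
  have hinj : Function.Injective (fun v => ((φ v (c v) : C.L v) : W)) := by
    intro u v huv
    by_contra hne
    have := C.disj u v hne
    rw [Set.disjoint_left] at this
    simp only at huv
    exact this (φ u (c u)).2 (huv ▸ (φ v (c v)).2)
  refine ⟨?_, ?_⟩
  · rintro _ ⟨u, rfl⟩ _ ⟨v, rfl⟩ hne hadj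
    have huv : u ≠ v := by
      rintro rfl; exact hne rfl
    by_cases hG : G.Adj u v
    · exact hc u v hG ⟨hG, hadj⟩
    · exact C.noedge u v huv hG _ (φ u (c u)).2 _ (φ v (c v)).2 hadj
  · rw [← Set.image_univ, hinj.encard_image, Set.encard_univ, ENat.card_eq_coe_natCard]

/-- The colorings of a cover correspond to the proper colorings of its canonical cover. -/
lemma toCC_bij [Finite V] (C : Cover G W) (φ : ∀ v, Fin m ≃ C.L v) :
    Function.Bijective (fun c : {c // (toCC C φ).Proper c} =>
      (⟨_, toCC_range_mem C φ c.1 c.2⟩ : C.colorings)) := by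
  classical
  constructor
  · rintro ⟨c, hc⟩ ⟨c', hc'⟩ h
    simp only [Subtype.mk.injEq] at h
    apply Subtype.ext
    funext v
    have hv : ((φ v (c v) : C.L v) : W) ∈ Set.range (fun v => ((φ v (c' v) : C.L v) : W)) := by
      rw [← h]; exact ⟨v, rfl⟩
    obtain ⟨u, hu⟩ := hv
    simp only at hu
    have huv : u = v := by
      by_contra hne
      have := C.disj u v hne
      rw [Set.disjoint_left] at this
      exact this (φ u (c' u)).2 (hu ▸ (φ v (c v)).2)
    subst huv
    exact ((φ u).injective (Subtype.ext hu)).symm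
  · rintro ⟨I, hI, hcard⟩
    -- every element has an owner
    have howner : ∀ w : W, ∃ v, w ∈ C.L v := by
      intro w
      have : w ∈ ⋃ v, C.L v := by rw [C.union]; trivial
      simpa using this
    choose g hg using howner
    have hginj : ∀ w ∈ I, ∀ w' ∈ I, g w = g w' → w = w' := by
      intro w hw w' hw' hgg
      by_contra hne
      have h1 : C.H.Adj w w' := C.clique (g w) (hg w) (hgg ▸ hg w') hne
      exact hI hw hw' hne h1
    have hIfin : I.Finite := by
      rw [← Set.encard_lt_top_iff, hcard]; exact ENat.natCast_lt_top _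
    have hsurj : ∀ v, ∃ w ∈ I, g w = v := by
      have himg : (g '' I) = Set.univ := by
        apply Set.eq_univ_of_forall
        have h1 : (g '' I).encard = I.encard :=
          Set.InjOn.encard_image (fun w hw w' hw' h => hginj w hw w' hw' h)
        have h2 : (g '' I).encard = (Set.univ : Set V).encard := by
          rw [h1, hcard, Set.encard_univ, ENat.card_eq_coe_natCard]
        have h3 : g '' I = Set.univ :=
          Set.Finite.eq_of_subset_of_encard_le (Set.toFinite _) (Set.subset_univ _) h2.ge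
        intro v
        rw [h3]; trivial
      intro v
      have : v ∈ g '' I := by rw [himg]; trivial
      exact this
    choose w hwI hgw using hsurj
    have hwL : ∀ v, w v ∈ C.L v := by
      intro v
      have h1 := hg (w v)
      rw [hgw v] at h1
      exact h1
    refine ⟨⟨fun v => (φ v).symm ⟨w v, hwL v⟩, ?_⟩, ?_⟩
    · rintro u v hadj ⟨-, h2⟩
      simp only [Equiv.apply_symm_apply] at h2
      exact hI (hwI u) (hwI v) h2.ne h2
    · apply Subtype.ext
      simp only [Equiv.apply_symm_apply]
      apply Set.eq_of_subset_of_subset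
      · rintro _ ⟨v, rfl⟩
        exact hwI v
      · intro x hx
        exact ⟨g x, (hginj x hx (w (g x)) (hwI _) (hgw (g x)).symm).symm⟩

/-- The lists of an `m`-fold cover are in bijection with `Fin m`. -/
lemma exists_equiv (C : Cover G W) (hC : C.IsFold m) : Nonempty (∀ v, Fin m ≃ C.L v) := by
  classical
  refine ⟨fun v => ?_⟩
  have hv := hC v
  have hfin : (C.L v).Finite := by
    rw [← Set.encard_lt_top_iff, hv]; exact ENat.natCast_lt_top _
  haveI : Fintype (C.L v) := hfin.fintype
  have hc : Fintype.card (C.L v) = m := by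
    rw [← Set.toFinset_card, ← Set.ncard_eq_toFinset_card']
    have := hfin.cast_ncard_eq
    rw [hv] at this
    exact_mod_cast this
  exact (Fintype.equivFinOfCardEq hc).symm

/-- The cover of a canonical cover. -/
def CC.toCover (D : CC G m) : Cover G (V × Fin m) where
  H :=
    { Adj := fun x y => (x.1 = y.1 ∧ x.2 ≠ y.2) ∨ (G.Adj x.1 y.1 ∧ D.M x.1 y.1 x.2 y.2)
      symm := by
        constructor
        rintro x y (⟨h1, h2⟩ | ⟨h1, h2⟩)
        · exact Or.inl ⟨h1.symm, h2.symm⟩
        · exact Or.inr ⟨h1.symm, D.symm _ _ _ _ h2⟩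
      loopless := by
        constructor
        rintro x (⟨-, h2⟩ | ⟨h1, -⟩)
        · exact h2 rfl
        · exact h1.ne rfl }
  L v := {x | x.1 = v}
  disj := by
    intro u v huv
    rw [Set.disjoint_left]
    rintro x hx hx'
    exact huv (hx.symm.trans hx')
  union := by
    apply Set.eq_univ_of_forall
    intro x
    simp
  clique := by
    rintro v x hx y hy hne
    left
    refine ⟨hx.trans hy.symm, ?_⟩
    intro h
    exact hne (Prod.ext (hx.trans hy.symm) h)
  matching := by
    rintro u v huv a ha b hb b' hb' h1 h2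
    have e1 : a.1 = u := ha
    have e2 : b.1 = v := hb
    have e3 : b'.1 = v := hb'
    rcases h1 with ⟨h1, -⟩ | ⟨-, h1⟩
    · exact absurd (e1.symm.trans (h1.trans e2)) huv.ne
    rcases h2 with ⟨h2, -⟩ | ⟨-, h2⟩
    · exact absurd (e1.symm.trans (h2.trans e3)) huv.ne
    rw [e1, e2] at h1
    rw [e1, e3] at h2
    exact Prod.ext (e2.trans e3.symm) (D.inj _ _ _ _ _ h1 h2)
  noedge := by
    rintro u v huv hG a ha b hb h
    have e1 : a.1 = u := ha
    have e2 : b.1 = v := hb
    rcases h with ⟨h1, -⟩ | ⟨h1, -⟩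
    · exact huv (e1.symm.trans (h1.trans e2))
    · rw [e1, e2] at h1
      exact hG h1

/-- The bijection of the lists of the cover of a canonical cover. -/
def CC.phi (D : CC G m) (v : V) : Fin m ≃ D.toCover.L v where
  toFun a := ⟨(v, a), rfl⟩
  invFun x := x.1.2
  left_inv a := rfl
  right_inv x := by
    apply Subtype.ext
    exact Prod.ext x.2.symm rfl

lemma CC.toCover_isFold (D : CC G m) : D.toCover.IsFold m := by
  intro v
  have h1 : ENat.card (D.toCover.L v) = ENat.card (Fin m) := (ENat.card_congr (D.phi v)).symm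
  rw [← Set.encard] at h1
  rw [h1]
  simp

lemma CC.proper_toCC_iff (D : CC G m) (c : V → Fin m) :
    (toCC D.toCover D.phi).Proper c ↔ D.Proper c := by
  constructor
  · intro h u v hadj hM
    exact h u v hadj ⟨hadj, Or.inr ⟨hadj, hM⟩⟩
  · rintro h u v hadj ⟨-, hM⟩
    rcases hM with ⟨h1, -⟩ | ⟨-, h1⟩
    · exact hadj.ne h1
    · exact h u v hadj h1

/-- `Good G m`: every canonical `m`-fold cover has a proper coloring. -/
def Good (G : SimpleGraph V) (m : ℕ) : Prop := ∀ D : CC G m, ∃ c, D.Proper c

lemma good_iff [Finite V] (G : SimpleGraph V) (m : ℕ) :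
    (∀ (W : Type) (C : Cover G W), C.IsFold m → C.colorings.Nonempty) ↔ Good G m := by
  constructor
  · intro h D
    obtain ⟨I, hI⟩ := h _ D.toCover D.toCover_isFold
    obtain ⟨c, -⟩ := (toCC_bij D.toCover D.phi).2 ⟨I, hI⟩
    exact ⟨c.1, (D.proper_toCC_iff _).mp c.2⟩
  · intro h W C hC
    obtain ⟨φ⟩ := exists_equiv C hC
    obtain ⟨c, hc⟩ := h (toCC C φ)
    exact ⟨_, toCC_range_mem C φ c hc⟩

lemma chiDP_eq [Finite V] (G : SimpleGraph V) : chiDP G = sInf {m : ℕ | 1 ≤ m ∧ Good G m} := by
  unfold chiDP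
  congr 1
  ext m
  simp only [Set.mem_ofPred_eq, good_iff]

lemma PDP_eq [Finite V] (G : SimpleGraph V) (m : ℕ) :
    PDP G m = sInf {n : ℕ | ∃ D : CC G m, Nat.card {c // D.Proper c} = n} := by
  unfold PDP
  congr 1
  ext n
  simp only [Set.mem_ofPred_eq]
  constructor
  · rintro ⟨W, C, hC, hn⟩
    obtain ⟨φ⟩ := exists_equiv C hC
    refine ⟨toCC C φ, ?_⟩
    rw [← hn, Nat.card_congr (Equiv.ofBijective _ (toCC_bij C φ))]
    rfl
  · rintro ⟨D, hn⟩
    refine ⟨_, D.toCover, D.toCover_isFold, ?_⟩
    rw [← hn]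
    have h1 := Nat.card_congr (Equiv.ofBijective _ (toCC_bij D.toCover D.phi))
    have h2 : Nat.card {c // (toCC D.toCover D.phi).Proper c} = Nat.card {c // D.Proper c} :=
      Nat.card_congr (Equiv.subtypeEquivRight (fun c => D.proper_toCC_iff c))
    rw [← h2, h1]
    rfl

/-! ### Basic facts on `Good` -/

/-- Restriction of a canonical cover along injections of the lists. -/
def CC.restrict {n : ℕ} (D : CC G m) (ψ : V → Fin n → Fin m) (hψ : ∀ v, Function.Injective (ψ v)) :
    CC G n where
  M u v a b := D.M u v (ψ u a) (ψ v b)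
  symm _ _ _ _ h := D.symm _ _ _ _ h
  inj _ v _ _ _ h h' := hψ v (D.inj _ _ _ _ _ h h')

lemma Good.exists_through {n : ℕ} (h : Good G n) (D : CC G m) (ψ : V → Fin n → Fin m)
    (hψ : ∀ v, Function.Injective (ψ v)) :
    ∃ c : V → Fin n, D.Proper (fun v => ψ v (c v)) := by
  obtain ⟨c, hc⟩ := h (D.restrict ψ hψ)
  exact ⟨c, fun u v hadj hM => hc u v hadj hM⟩

lemma Good.mono {n m : ℕ} (h : Good G n) (hnm : n ≤ m) : Good G m := by
  intro D
  obtain ⟨c, hc⟩ := h.exists_through D (fun _ => Fin.castLE hnm)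
    (fun _ => Fin.castLE_injective hnm)
  exact ⟨_, hc⟩

lemma good_card [Fintype V] [Nonempty V] : Good G (Fintype.card V) := by
  classical
  intro D
  have hpos : 0 < Fintype.card V := Fintype.card_pos
  have key : ∀ s : Finset V, ∃ c : V → Fin (Fintype.card V), ∀ u ∈ s, ∀ v ∈ s, G.Adj u v →
      ¬ D.M u v (c u) (c v) := by
    intro s
    induction s using Finset.induction_on with
    | empty => exact ⟨fun _ => ⟨0, hpos⟩, by simp⟩
    | insert v s hv ih =>
      obtain ⟨c, hc⟩ := ih
      -- forbidden colors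
      let F : Finset (Fin (Fintype.card V)) :=
        Finset.univ.filter (fun b => ∃ u ∈ s, D.M u v (c u) b)
      have hF : F.card ≤ s.card := by
        have hex : ∀ b ∈ F, ∃ u ∈ s, D.M u v (c u) b := fun b hb => (Finset.mem_filter.mp hb).2
        choose! g hg1 hg2 using hex
        apply Finset.card_le_card_of_injOn g (fun b hb => hg1 b hb)
        intro b hb b' hb' hbb
        have h1 := hg2 b hb
        have h2 := hg2 b' hb'
        rw [← hbb] at h2
        exact D.inj _ _ _ _ _ h1 h2
      have hs : s.card < Fintype.card V := by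
        have : (insert v s).card ≤ Fintype.card V := Finset.card_le_univ _
        rw [Finset.card_insert_of_notMem hv] at this
        omega
      have hex : ∃ b, b ∉ F := by
        by_contra hall
        push Not at hall
        have : F = Finset.univ := Finset.eq_univ_iff_forall.mpr hall
        rw [this, Finset.card_univ, Fintype.card_fin] at hF
        omega
      obtain ⟨b, hb⟩ := hex
      have hb' : ∀ u ∈ s, ¬ D.M u v (c u) b := by
        intro u hu hM
        exact hb (Finset.mem_filter.mpr ⟨Finset.mem_univ _, u, hu, hM⟩)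
      refine ⟨Function.update c v b, ?_⟩
      intro x hx y hy hadj hM
      rcases Finset.mem_insert.mp hx with hxv | hxs
      · subst hxv
        rcases Finset.mem_insert.mp hy with hyv | hys
        · exact hadj.ne hyv.symm
        · have hyx : y ≠ x := by rintro rfl; exact hv hys
          rw [Function.update_self, Function.update_of_ne hyx] at hM
          exact hb' y hys (D.symm _ _ _ _ hM)
      · have hxv : x ≠ v := by rintro rfl; exact hv hxs
        rcases Finset.mem_insert.mp hy with hyv | hys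
        · subst hyv
          rw [Function.update_self, Function.update_of_ne hxv] at hM
          exact hb' x hxs hM
        · have hyv : y ≠ v := by rintro rfl; exact hv hys
          rw [Function.update_of_ne hxv, Function.update_of_ne hyv] at hM
          exact hc x hxs y hys hadj hM
  obtain ⟨c, hc⟩ := key Finset.univ
  exact ⟨c, fun u v hadj => hc u (Finset.mem_univ _) v (Finset.mem_univ _) hadj⟩

/-- The trivial canonical cover. -/
def CC.triv (G : SimpleGraph V) (m : ℕ) : CC G m where
  M _ _ _ _ := False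
  symm := by intros; assumption
  inj := by intros; contradiction

lemma not_good_zero [Nonempty V] : ¬ Good G 0 := by
  intro h
  obtain ⟨c, -⟩ := h (CC.triv G 0)
  obtain ⟨v⟩ := (inferInstance : Nonempty V)
  exact (c v).elim0

lemma chiDP_spec [Fintype V] [Nonempty V] : 1 ≤ chiDP G ∧ Good G (chiDP G) := by
  rw [chiDP_eq]
  exact Nat.sInf_mem (s := {m : ℕ | 1 ≤ m ∧ Good G m}) ⟨_, Fintype.card_pos, good_card⟩

lemma chiDP_le_iff [Fintype V] [Nonempty V] {m : ℕ} : chiDP G ≤ m ↔ Good G m := by
  constructor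
  · intro h
    exact chiDP_spec.2.mono h
  · intro h
    rw [chiDP_eq]
    apply Nat.sInf_le
    refine ⟨?_, h⟩
    rcases Nat.eq_zero_or_pos m with h0 | h0
    · subst h0; exact absurd h not_good_zero
    · exact h0

/-! ### The upper bound `χ_DP(G □ K_{k,t}) ≤ χ_DP(G) + k` -/

lemma good_prod [Fintype V] {χ k t : ℕ} (h : Good G χ) :
    Good (G.boxProd (completeBipartiteGraph (Fin k) (Fin t))) (χ + k) := by
  classical
  intro D
  -- color the first copies
  have hk : Good G (χ + k) := h.mono (Nat.le_add_right _ _)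
  have h1 : ∀ i : Fin k, ∃ c : V → Fin (χ + k), ∀ u v, G.Adj u v →
      ¬ D.M (u, Sum.inl i) (v, Sum.inl i) (c u) (c v) := by
    intro i
    obtain ⟨c, hc⟩ := hk
      { M := fun u v a b => D.M (u, Sum.inl i) (v, Sum.inl i) a b
        symm := fun u v a b hM => D.symm _ _ _ _ hM
        inj := fun u v a b b' hM hM' => D.inj _ _ _ _ _ hM hM' }
    exact ⟨c, hc⟩
  choose c hc using h1
  -- forbidden colors on the other copies
  have h2 : ∀ (j : Fin t) (v : V), ∃ ψ : Fin χ → Fin (χ + k), Function.Injective ψ ∧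
      ∀ (i : Fin k) (b : Fin χ), ¬ D.M (v, Sum.inl i) (v, Sum.inr j) (c i v) (ψ b) := by
    intro j v
    let F : Finset (Fin (χ + k)) := Finset.univ.filter
      (fun b => ∃ i : Fin k, D.M (v, Sum.inl i) (v, Sum.inr j) (c i v) b)
    have hF : F.card ≤ k := by
      have hex : ∀ b : F, ∃ i : Fin k, D.M (v, Sum.inl i) (v, Sum.inr j) (c i v) b :=
        fun b => (Finset.mem_filter.mp b.2).2
      choose g hg using hex
      have hginj : Function.Injective g := by
        intro b b' hbb
        have h1 := hg b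
        have h2 := hg b'
        rw [← hbb] at h2
        exact Subtype.ext (D.inj _ _ _ _ _ h1 h2)
      have := Fintype.card_le_of_injective g hginj
      simpa using this
    have hFc : χ ≤ (Fᶜ).card := by
      rw [Finset.card_compl, Fintype.card_fin]; omega
    obtain ⟨T, hT, hTc⟩ := Finset.exists_subset_card_eq hFc
    refine ⟨fun b => T.orderEmbOfFin hTc b, (T.orderEmbOfFin hTc).injective, ?_⟩
    intro i b hM
    have hmem : T.orderEmbOfFin hTc b ∈ T := Finset.orderEmbOfFin_mem T hTc b
    have hmem' := hT hmem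
    rw [Finset.mem_compl] at hmem'
    exact hmem' (Finset.mem_filter.mpr ⟨Finset.mem_univ _, i, hM⟩)
  choose ψ hψ hψM using h2
  have h3 : ∀ j : Fin t, ∃ d : V → Fin χ, ∀ u v, G.Adj u v →
      ¬ D.M (u, Sum.inr j) (v, Sum.inr j) (ψ j u (d u)) (ψ j v (d v)) := by
    intro j
    obtain ⟨d, hd⟩ := h
      { M := fun u v a b => D.M (u, Sum.inr j) (v, Sum.inr j) (ψ j u a) (ψ j v b)
        symm := fun u v a b hM => D.symm _ _ _ _ hM
        inj := fun u v a b b' hM hM' => hψ j v (D.inj _ _ _ _ _ hM hM') }
    exact ⟨d, hd⟩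
  choose d hd using h3
  refine ⟨fun x => match x with
    | (v, Sum.inl i) => c i v
    | (v, Sum.inr j) => ψ j v (d j v), ?_⟩
  rintro ⟨u, p⟩ ⟨v, q⟩ hadj hM
  rw [boxProd_adj] at hadj
  rcases hadj with ⟨huv, hpq⟩ | ⟨hpq, huv⟩
  · simp only at huv hpq
    subst hpq
    rcases p with i | j
    · exact hc i u v huv hM
    · exact hd j u v huv hM
  · simp only at huv hpq
    subst huv
    rcases p with i | j <;> rcases q with i' | j'
    · simp at hpq
    · exact hψM j' u i _ hM
    · exact hψM j u i' _ (D.symm _ _ _ _ hM)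
    · simp at hpq

/-! ### At least two colorings -/

lemma two_le_card [Fintype V] [Nonempty V] {m : ℕ} (h : Good G m) (D : CC G (m + 1)) :
    ∃ c c' : {c // D.Proper c}, c ≠ c' := by
  obtain ⟨c, hc⟩ := h.mono (Nat.le_succ m) D
  obtain ⟨v⟩ := (inferInstance : Nonempty V)
  obtain ⟨d, hd⟩ := h.exists_through D (fun _ => (c v).succAbove)
    (fun _ => Fin.succAbove_right_injective)
  refine ⟨⟨c, hc⟩, ⟨_, hd⟩, ?_⟩
  intro hcd
  have h1 : c = fun v' => (c v).succAbove (d v') := congrArg Subtype.val hcd
  have h2 : c v = (c v).succAbove (d v) := congrFun h1 v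
  exact Fin.succAbove_ne (c v) (d v) h2.symm

/-! ### The bad cover of the product -/

section Bad

variable {k n : ℕ} (i0 i1 : Fin k)

/-- Matching between the list of `(v, inl i)` (colors of `Fin m`) and the list of `(v, inr j)`,
where the copy `j` is to kill the tuple `τ` and the tuple `τ` with coordinates `i0`, `i1`
exchanged. -/
def kill (τ : Fin k → V → Fin (k + n)) (v : V) (i : Fin k) (a s : Fin (k + n)) : Prop :=
  (s.val = i.val ∧ a = τ i v) ∨
    ((i = i0 ∨ i = i1) ∧ s.val = (Equiv.swap i0 i1 i).val ∧ a = τ (Equiv.swap i0 i1 i) v ∧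
      τ i0 v ≠ τ i1 v)

lemma kill_inj_right (τ : Fin k → V → Fin (k + n)) (v : V) (i : Fin k)
    (a s s' : Fin (k + n)) (h : kill i0 i1 τ v i a s) (h' : kill i0 i1 τ v i a s') : s = s' := by
  unfold kill at h h'
  rcases h with ⟨h1, h2⟩ | ⟨hi, h1, h2, h3⟩ <;> rcases h' with ⟨h1', h2'⟩ | ⟨hi', h1', h2', h3'⟩
  · exact Fin.ext (h1.trans h1'.symm)
  · exfalso
    rw [h2] at h2'
    rcases hi' with rfl | rfl
    · rw [Equiv.swap_apply_left] at h2'; exact h3' h2'
    · rw [Equiv.swap_apply_right] at h2'; exact h3' h2'.symm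
  · exfalso
    rw [h2'] at h2
    rcases hi with rfl | rfl
    · rw [Equiv.swap_apply_left] at h2; exact h3 h2
    · rw [Equiv.swap_apply_right] at h2; exact h3 h2.symm
  · exact Fin.ext (h1.trans h1'.symm)

lemma kill_inj_left (h01 : i0 ≠ i1) (τ : Fin k → V → Fin (k + n)) (v : V) (i : Fin k)
    (a a' s : Fin (k + n)) (h : kill i0 i1 τ v i a s) (h' : kill i0 i1 τ v i a' s) : a = a' := by
  unfold kill at h h'
  rcases h with ⟨h1, h2⟩ | ⟨hi, h1, h2, h3⟩ <;> rcases h' with ⟨h1', h2'⟩ | ⟨hi', h1', h2', h3'⟩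
  · rw [h2, h2']
  · exfalso
    have h4 : i = Equiv.swap i0 i1 i := Fin.ext (h1.symm.trans h1')
    rcases hi' with rfl | rfl
    · rw [Equiv.swap_apply_left] at h4; exact h01 h4
    · rw [Equiv.swap_apply_right] at h4; exact h01 h4.symm
  · exfalso
    have h4 : i = Equiv.swap i0 i1 i := Fin.ext (h1'.symm.trans h1)
    rcases hi with rfl | rfl
    · rw [Equiv.swap_apply_left] at h4; exact h01 h4
    · rw [Equiv.swap_apply_right] at h4; exact h01 h4.symm
  · rw [h2, h2']

/-- The bad cover of the product. -/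
def badCover {t : ℕ} (h01 : i0 ≠ i1) (D : CC G (k + n)) (B : CC G n)
    (S : Fin t → Fin k → V → Fin (k + n)) :
    CC (G.boxProd (completeBipartiteGraph (Fin k) (Fin t))) (k + n) where
  M x y a b :=
    match x, y with
    | (u, Sum.inl _), (v, Sum.inl _) => D.M u v a b
    | (u, Sum.inr _), (v, Sum.inr _) =>
      ∃ a' b' : Fin n, a = Fin.natAdd k a' ∧ b = Fin.natAdd k b' ∧ B.M u v a' b'
    | (u, Sum.inl i), (v, Sum.inr j) => u = v ∧ kill i0 i1 (S j) v i a b
    | (u, Sum.inr j), (v, Sum.inl i) => u = v ∧ kill i0 i1 (S j) v i b a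
  symm := by
    rintro ⟨u, i | j⟩ ⟨v, i' | j'⟩ a b h
    · exact D.symm _ _ _ _ h
    · obtain ⟨rfl, h⟩ := h; exact ⟨rfl, h⟩
    · obtain ⟨rfl, h⟩ := h; exact ⟨rfl, h⟩
    · obtain ⟨a', b', h1, h2, h3⟩ := h
      exact ⟨b', a', h2, h1, B.symm _ _ _ _ h3⟩
  inj := by
    rintro ⟨u, i | j⟩ ⟨v, i' | j'⟩ a b b' h h'
    · exact D.inj _ _ _ _ _ h h'
    · exact kill_inj_right i0 i1 _ _ _ _ _ _ h.2 h'.2
    · exact kill_inj_left i0 i1 h01 _ _ _ _ _ _ h.2 h'.2
    · obtain ⟨a1, b1, h1, h2, h3⟩ := h
      obtain ⟨a2, b2, h1', h2', h3'⟩ := h'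
      have : a1 = a2 := Fin.natAdd_injective _ _ (h1.symm.trans h1')
      subst this
      rw [h2, h2', B.inj _ _ _ _ _ h3 h3']

lemma not_good_of_bad {t : ℕ} (h01 : i0 ≠ i1) (D : CC G (k + n)) (B : CC G n)
    (hB : ∀ c, ¬ B.Proper c)
    (S : Fin t → Fin k → V → Fin (k + n))
    (hS : ∀ c : Fin k → V → Fin (k + n), (∀ i, D.Proper (c i)) →
      ∃ j, S j = c ∨ S j = c ∘ Equiv.swap i0 i1) :
    ¬ Good (G.boxProd (completeBipartiteGraph (Fin k) (Fin t))) (k + n) := by
  intro hgood
  obtain ⟨c, hc⟩ := hgood (badCover i0 i1 h01 D B S)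
  -- the colorings of the first copies
  let C : Fin k → V → Fin (k + n) := fun i v => c (v, Sum.inl i)
  have hC : ∀ i, D.Proper (C i) := by
    intro i u v hadj hM
    have : (G.boxProd (completeBipartiteGraph (Fin k) (Fin t))).Adj (u, Sum.inl i)
        (v, Sum.inl i) := by
      rw [boxProd_adj]; exact Or.inl ⟨hadj, rfl⟩
    exact hc _ _ this hM
  obtain ⟨j, hj⟩ := hS C hC
  have hno : ∀ (v : V) (i : Fin k), ¬ kill i0 i1 (S j) v i (C i v) (c (v, Sum.inr j)) := by
    intro v i hk
    have : (G.boxProd (completeBipartiteGraph (Fin k) (Fin t))).Adj (v, Sum.inl i)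
        (v, Sum.inr j) := by
      rw [boxProd_adj]; right; simp
    exact hc _ _ this ⟨rfl, hk⟩
  -- the special colors are excluded on copy j
  have hspecial : ∀ v : V, k ≤ (c (v, Sum.inr j)).val := by
    intro v
    by_contra hlt
    push Not at hlt
    obtain ⟨s, hs⟩ : ∃ s : Fin k, (c (v, Sum.inr j)).val = s.val := ⟨⟨_, hlt⟩, rfl⟩
    rcases hj with hj | hj
    · apply hno v s
      left
      exact ⟨hs, by rw [hj]⟩
    · by_cases hs0 : s = i0
      · by_cases hne : C i0 v = C i1 v
        · apply hno v s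
          left
          refine ⟨hs, ?_⟩
          rw [hj, hs0]
          simp only [Function.comp_apply, Equiv.swap_apply_left]
          exact hne
        · apply hno v i1
          right
          refine ⟨Or.inr rfl, ?_, ?_, ?_⟩
          · rw [Equiv.swap_apply_right, hs, hs0]
          · rw [Equiv.swap_apply_right, hj]
            simp only [Function.comp_apply, Equiv.swap_apply_left]
          · rw [hj]
            simp only [Function.comp_apply, Equiv.swap_apply_left, Equiv.swap_apply_right]
            exact fun h => hne h.symm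
      · by_cases hs1 : s = i1
        · by_cases hne : C i0 v = C i1 v
          · apply hno v s
            left
            refine ⟨hs, ?_⟩
            rw [hj, hs1]
            simp only [Function.comp_apply, Equiv.swap_apply_right]
            exact hne.symm
          · apply hno v i0
            right
            refine ⟨Or.inl rfl, ?_, ?_, ?_⟩
            · rw [Equiv.swap_apply_left, hs, hs1]
            · rw [Equiv.swap_apply_left, hj]
              simp only [Function.comp_apply, Equiv.swap_apply_right]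
            · rw [hj]
              simp only [Function.comp_apply, Equiv.swap_apply_left, Equiv.swap_apply_right]
              exact fun h => hne h.symm
        · apply hno v s
          left
          refine ⟨hs, ?_⟩
          rw [hj]
          simp only [Function.comp_apply, Equiv.swap_apply_of_ne_of_ne hs0 hs1]
  -- a proper coloring of B
  have hlt : ∀ v : V, (c (v, Sum.inr j)).val - k < n := by
    intro v
    have h1 := hspecial v
    have h2 := (c (v, Sum.inr j)).isLt
    omega
  apply hB (fun v => ⟨(c (v, Sum.inr j)).val - k, hlt v⟩)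
  intro u v hadj hM
  have hadj' : (G.boxProd (completeBipartiteGraph (Fin k) (Fin t))).Adj (u, Sum.inr j)
      (v, Sum.inr j) := by
    rw [boxProd_adj]; exact Or.inl ⟨hadj, rfl⟩
  refine hc _ _ hadj' ⟨_, _, ?_, ?_, hM⟩
  · apply Fin.ext
    simp only [Fin.val_natAdd]
    have := hspecial u
    omega
  · apply Fin.ext
    simp only [Fin.val_natAdd]
    have := hspecial v
    omega

end Bad

/-! ### The main theorem -/

theorem f_lt [Fintype V] [Nonempty V] (G : SimpleGraph V) (k : ℕ) (hk : 2 ≤ k) :
    f G k < (PDP G (chiDP G + k - 1)) ^ k := by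
  classical
  obtain ⟨hχ1, hχ⟩ := chiDP_spec (G := G)
  obtain ⟨n, hn⟩ : ∃ n, chiDP G = n + 1 := ⟨chiDP G - 1, by omega⟩
  have hm : chiDP G + k - 1 = k + n := by omega
  rw [hm]
  -- a bad cover with `n = χ - 1` colors
  have hbad : ¬ Good G n := by
    intro h
    have := chiDP_le_iff.mpr h
    omega
  obtain ⟨B, hB⟩ : ∃ B : CC G n, ∀ c, ¬ B.Proper c := by
    unfold Good at hbad
    push Not at hbad
    exact hbad
  -- an optimal cover
  obtain ⟨D, hD⟩ : ∃ D : CC G (k + n), Nat.card {c // D.Proper c} = PDP G (k + n) := by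
    rw [PDP_eq]
    exact Nat.sInf_mem (s := {n' : ℕ | ∃ D : CC G (k + n), Nat.card {c // D.Proper c} = n'})
      ⟨_, CC.triv G _, rfl⟩
  -- two distinct colorings
  obtain ⟨q, hq⟩ : ∃ q, k + n = q + 1 ∧ chiDP G ≤ q := ⟨k + n - 1, by omega, by omega⟩
  have htwo : ∃ c c' : {c // D.Proper c}, c ≠ c' := by
    have h1 : Good G q := hχ.mono hq.2
    have h2 := hq.1
    generalize k + n = r at D h2
    subst h2
    exact two_le_card h1 D
  have : Fintype {c // D.Proper c} := Fintype.ofFinite _
  let e : {c // D.Proper c} ≃ Fin (Fintype.card {c // D.Proper c}) := Fintype.equivFin _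
  let i0 : Fin k := ⟨0, by omega⟩
  let i1 : Fin k := ⟨1, by omega⟩
  have h01 : i0 ≠ i1 := by
    intro h
    have := congrArg Fin.val h
    simp [i0, i1] at this
  -- the index set of the killing copies
  let T := Fin k → {c // D.Proper c}
  let S : Set T := {τ | e (τ i0) ≤ e (τ i1)}
  have hTcard : Nat.card T = (PDP G (k + n)) ^ k := by
    rw [← hD]
    simp only [T, Nat.card_eq_fintype_card, Fintype.card_fun, Fintype.card_fin]
  have hScard : Nat.card S < Nat.card T := by
    obtain ⟨c, c', hcc⟩ := htwo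
    obtain ⟨d, d', hdd⟩ : ∃ d d', e d' < e d := by
      rcases lt_or_gt_of_ne (fun h => hcc (e.injective h)) with h | h
      · exact ⟨c', c, h⟩
      · exact ⟨c, c', h⟩
    have hnot : (Function.update (fun _ => d') i0 d : T) ∉ S := by
      intro hmem
      have : e ((Function.update (fun _ => d') i0 d : T) i0) ≤
        e ((Function.update (fun _ => d') i0 d : T) i1) := hmem
      rw [Function.update_self, Function.update_of_ne h01.symm] at this
      exact absurd this (not_le.mpr hdd)
    rw [← Set.ncard_univ T, Nat.card_coe_set_eq]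
    apply Set.ncard_lt_ncard _ (Set.toFinite _)
    exact ⟨Set.subset_univ _, fun h => hnot (h (Set.mem_univ _))⟩
  have : Fintype S := Fintype.ofFinite _
  let g : Fin (Nat.card S) ≃ S := (Finite.equivFin S).symm
  have hngood : ¬ Good (G.boxProd (completeBipartiteGraph (Fin k) (Fin (Nat.card S)))) (k + n) := by
    apply not_good_of_bad i0 i1 h01 D B hB (fun j i => ((g j).1 i).1)
    intro c hc
    let τ : T := fun i => ⟨c i, hc i⟩
    by_cases hle : e (τ i0) ≤ e (τ i1)
    · refine ⟨g.symm ⟨τ, hle⟩, Or.inl ?_⟩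
      simp only [Equiv.apply_symm_apply]
      rfl
    · refine ⟨g.symm ⟨τ ∘ Equiv.swap i0 i1, ?_⟩, Or.inr ?_⟩
      · show e ((τ ∘ Equiv.swap i0 i1) i0) ≤ e ((τ ∘ Equiv.swap i0 i1) i1)
        simp only [Function.comp_apply, Equiv.swap_apply_left, Equiv.swap_apply_right]
        exact (not_le.mp hle).le
      · simp only [Equiv.apply_symm_apply]
        rfl
  have : Nonempty (V × (Fin k ⊕ Fin (Nat.card S))) := by
    obtain ⟨v⟩ := (inferInstance : Nonempty V)
    exact ⟨(v, Sum.inl i0)⟩
  have hchi : chiDP (G.boxProd (completeBipartiteGraph (Fin k) (Fin (Nat.card S)))) =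
      chiDP G + k := by
    apply le_antisymm
    · exact chiDP_le_iff.mpr (good_prod hχ)
    · by_contra hlt
      push Not at hlt
      apply hngood
      apply chiDP_le_iff.mp
      omega
  calc f G k ≤ Nat.card S := Nat.sInf_le hchi
    _ < Nat.card T := hScard
    _ = (PDP G (k + n)) ^ k := hTcard

end Pool.Agent.Lib.MP_924496_co
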